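import Pool.Agent.K1H57.PS.Ring
import Pool.Agent.W666.GB.Av

/-!
# The algebra of the mixed part
-/

set_option autoImplicit false

namespace Pool.Agent.K1H57.PS

open Pool.Agent.Y195.HF Pool.Agent.W666.GB Pool.Agent.W669.HD Pool.Agent.Y519.HB Finset

section sgn

variable {κ : Type} [Fintype κ] [DecidableEq κ]

theorem av_two (a b : κ) : av (fun ε : κ → Bool => sg (ε a) * sg (ε b)) = if a = b then 1 else 0 := by
  split_ifs with h
  · subst h
    simp [av_const]
  · rw [av_resample a]
    have : ∀ (ω : κ → Bool) (v : Bool), sg (Function.update ω a v a) *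
        sg (Function.update ω a v b) = sg v * sg (ω b) := by
      intro ω v
      rw [Function.update_self, Function.update_of_ne (Ne.symm h)]
    simp only [this, av_mul_right, av_sg, zero_mul, av_const]

theorem av_four (a b c d : κ) :
    av (fun ε : κ → Bool => sg (ε a) * sg (ε b) * (sg (ε c) * sg (ε d))) =
      (if a = b then 1 else 0) * (if c = d then 1 else 0) +
      (if a = c then 1 else 0) * (if b = d then 1 else 0) +
      (if a = d then 1 else 0) * (if b = c then 1 else 0) -
      2 * ((if a = b then 1 else 0) * ((if b = c then 1 else 0) * (if c = d then 1 else 0))) := by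
  by_cases hab : a = b
  · subst hab
    have h1 : ∀ ε : κ → Bool, sg (ε a) * sg (ε a) * (sg (ε c) * sg (ε d)) =
        sg (ε c) * sg (ε d) := fun ε => by rw [sg_mul_self, one_mul]
    simp only [h1, av_two]
    by_cases hac : a = c
    · subst hac
      by_cases had : a = d
      · simp [had]; norm_num
      · simp [had]
    · by_cases had : a = d
      · subst had
        have hca : c ≠ a := fun h => hac h.symm
        simp [hac, hca]
      · simp [hac, had]
  · by_cases hac : a = c
    · subst hac
      have h1 : ∀ ε : κ → Bool, sg (ε a) * sg (ε b) * (sg (ε a) * sg (ε d)) =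
          sg (ε b) * sg (ε d) := fun ε => by
        have := sg_mul_self (ε a)
        linear_combination (sg (ε b) * sg (ε d)) * this
      simp only [h1, av_two]
      have hba : b ≠ a := fun h => hab h.symm
      simp [hab, hba]
    · by_cases had : a = d
      · subst had
        have h1 : ∀ ε : κ → Bool, sg (ε a) * sg (ε b) * (sg (ε c) * sg (ε a)) =
            sg (ε b) * sg (ε c) := fun ε => by
          have := sg_mul_self (ε a)
          linear_combination (sg (ε b) * sg (ε c)) * this
        simp only [h1, av_two]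
        simp [hab, hac]
      · rw [av_resample a]
        have : ∀ (ω : κ → Bool) (v : Bool), sg (Function.update ω a v a) *
            sg (Function.update ω a v b) * (sg (Function.update ω a v c) *
            sg (Function.update ω a v d)) = sg v * (sg (ω b) * (sg (ω c) * sg (ω d))) := by
          intro ω v
          rw [Function.update_self, Function.update_of_ne (Ne.symm hab),
            Function.update_of_ne (Ne.symm hac), Function.update_of_ne (Ne.symm had)]
          ring
        simp only [this, av_mul_right, av_sg, zero_mul, av_const]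
        simp [hab, hac, had]

theorem four_avg (q : κ → κ → κ → κ → ℝ) :
    av (fun ε : κ → Bool => ∑ a, ∑ b, ∑ c, ∑ d,
      sg (ε a) * sg (ε b) * (sg (ε c) * sg (ε d)) * q a b c d) =
    (∑ a, ∑ c, q a a c c) + (∑ a, ∑ b, q a b a b) + (∑ a, ∑ b, q a b b a) -
      2 * ∑ a, q a a a a := by
  simp only [av_sum, av_mul_right, av_four, sub_mul, add_mul, sum_add_distrib, sum_sub_distrib]
  have e1 : ∀ a b c d : κ, (if a = b then (1 : ℝ) else 0) * (if c = d then 1 else 0) * q a b c d =
      if a = b then (if c = d then q a b c d else 0) else 0 := by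
    intro a b c d; split_ifs <;> simp
  have e2 : ∀ a b c d : κ, (if a = c then (1 : ℝ) else 0) * (if b = d then 1 else 0) * q a b c d =
      if a = c then (if b = d then q a b c d else 0) else 0 := by
    intro a b c d; split_ifs <;> simp
  have e3 : ∀ a b c d : κ, (if a = d then (1 : ℝ) else 0) * (if b = c then 1 else 0) * q a b c d =
      if a = d then (if b = c then q a b c d else 0) else 0 := by
    intro a b c d; split_ifs <;> simp
  have e4 : ∀ a b c d : κ, 2 * ((if a = b then (1 : ℝ) else 0) * ((if b = c then 1 else 0) *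
      (if c = d then 1 else 0))) * q a b c d =
      if a = b then (if b = c then (if c = d then 2 * q a b c d else 0) else 0) else 0 := by
    intro a b c d; split_ifs <;> simp
  simp only [e1, e2, e3, e4]
  have f1 : ∀ a : κ, ∑ b, ∑ c, ∑ d, (if a = b then (if c = d then q a b c d else 0) else 0) =
      ∑ c, q a a c c := by
    intro a
    rw [Finset.sum_eq_single a]
    · refine sum_congr rfl fun c _ => ?_
      simp
    · intro b _ hb
      simp [Ne.symm hb]
    · simp
  have f2 : ∀ a : κ, ∑ b, ∑ c, ∑ d, (if a = c then (if b = d then q a b c d else 0) else 0) =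
      ∑ b, q a b a b := by
    intro a
    refine sum_congr rfl fun b _ => ?_
    rw [Finset.sum_eq_single a]
    · simp
    · intro c _ hc
      simp [Ne.symm hc]
    · simp
  have f3 : ∀ a : κ, ∑ b, ∑ c, ∑ d, (if a = d then (if b = c then q a b c d else 0) else 0) =
      ∑ b, q a b b a := by
    intro a
    refine sum_congr rfl fun b _ => ?_
    rw [Finset.sum_eq_single b]
    · simp
    · intro c _ hc
      simp [Ne.symm hc]
    · simp
  have f4 : ∀ a : κ, ∑ b, ∑ c, ∑ d, (if a = b then (if b = c then (if c = d then 2 * q a b c d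
      else 0) else 0) else 0) = 2 * q a a a a := by
    intro a
    rw [Finset.sum_eq_single a, Finset.sum_eq_single a]
    · simp
    · intro c _ hc
      simp [Ne.symm hc]
    · simp
    · intro b _ hb
      simp [Ne.symm hb]
    · simp
  simp only [f1, f2, f3, f4]
  rw [← mul_sum]

theorem four_nonneg (q : κ → κ → κ → κ → ℝ)
    (h : ∀ ε : κ → Bool, 0 ≤ ∑ a, ∑ b, ∑ c, ∑ d,
      sg (ε a) * sg (ε b) * (sg (ε c) * sg (ε d)) * q a b c d) (hd : ∀ a, 0 ≤ q a a a a) :
    0 ≤ (∑ a, ∑ c, q a a c c) + (∑ a, ∑ b, q a b a b) + (∑ a, ∑ b, q a b b a) := by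
  have h1 := four_avg q
  have h2 := av_nonneg h
  have h3 : 0 ≤ ∑ a, q a a a a := sum_nonneg fun a _ => hd a
  rw [h1] at h2
  linarith

end sgn

section alg

variable {m : ℕ} {κ : Type} [Fintype κ]

/-- the mixed tensor, together with the terms forced by the first Bianchi identity -/
noncomputable def Bt (α β : Cv m) (x y : κ → Cv m) : T4 m := fun i j k l =>
  ∑ a, (wd α β i j * wd (x a) (y a) k l + wd (x a) (y a) i j * wd α β k l +
    (wd α (x a) i j + wd β (y a) i j) * (wd α (x a) k l + wd β (y a) k l))

/-- the sum `X + Y` -/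
noncomputable def nn (s : Bool) (α β x y : Cv m) : Zc (I2 m → ℂ) := bb s α x + bb s β y

/-- a summand -/
noncomputable def ea (α β x y : Cv m) : Zc (I2 m → ℂ) :=
  bb false α β * bb true x y + bb false x y * bb true α β + nn false α β x y * nn true α β x y

theorem eL_Bt (α β : Cv m) (x y : κ → Cv m) :
    eL (cx (Bt α β x y)) = 4 * ∑ a, ea α β (x a) (y a) := by
  have h1 : cx (Bt α β x y) = fun i j k l => ∑ a, ((cm (wd α β) i j * cm (wd (x a) (y a)) k l +
      cm (wd (x a) (y a)) i j * cm (wd α β) k l) +
      (cm (wd α (x a)) + cm (wd β (y a)) : Mt m) i j *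
        (cm (wd α (x a)) + cm (wd β (y a)) : Mt m) k l) := by
    funext i j k l
    simp only [cx, Bt, cm, Pi.add_apply]
    push_cast
    rfl
  rw [h1, eL_sum (fun a i j k l => (cm (wd α β) i j * cm (wd (x a) (y a)) k l +
      cm (wd (x a) (y a)) i j * cm (wd α β) k l) +
      (cm (wd α (x a)) + cm (wd β (y a)) : Mt m) i j *
        (cm (wd α (x a)) + cm (wd β (y a)) : Mt m) k l), mul_sum]
  refine sum_congr rfl fun a _ => ?_
  rw [eL_add, eL_add, eL_mul, eL_mul, eL_mul, ff_add, ff_add, ff_wd, ff_wd, ff_wd, ff_wd, ff_wd,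
    ff_wd, ff_wd, ff_wd, ea, nn, nn]
  ring

theorem nn_mul (s : Bool) (α β x y z w : Cv m) : nn s α β x y * nn s α β z w =
    - (bb s α β * (bb s x w + bb s z y)) := by
  unfold nn
  have h1 := bb_rep1 s α x z
  have h2 := bb_rep1 s β y w
  have h3 := bb_exch s α x β w
  have h4 := bb_exch s α z β y
  linear_combination h1 + h2 + h3 + h4

theorem p_nn (s : Bool) (α β x y : Cv m) : bb s α β * nn s α β x y = 0 := by
  unfold nn
  have h1 := bb_rep1 s α β x
  have h2 := bb_rep2 s α β y
  linear_combination h1 + h2

theorem p_p (s : Bool) (α β : Cv m) : bb s α β * bb s α β = 0 := bb_rep1 s α β β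

theorem ea_mul (α β x y z w : Cv m) : ea α β x y * ea α β z w =
    bb false α β * bb true α β * (bb false z w * bb true x y + bb false x y * bb true z w +
      (bb false x w + bb false z y) * (bb true x w + bb true z y)) := by
  unfold ea
  have a1 := p_p false α β
  have a2 := p_p true α β
  have b1 := p_nn false α β x y
  have b2 := p_nn true α β x y
  have b3 := p_nn false α β z w
  have b4 := p_nn true α β z w
  have c1 := nn_mul false α β x y z w
  have c2 := nn_mul true α β x y z w
  linear_combination (bb true x y * bb true z w) * a1 + (bb false x y * bb false z w) * a2 +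
    (bb true x y * nn true α β z w) * b3 + (bb true z w * nn true α β x y) * b1 +
    (bb false x y * nn false α β z w) * b4 + (bb false z w * nn false α β x y) * b2 +
    (nn true α β x y * nn true α β z w) * c1 -
    (bb false α β * (bb false x w + bb false z y)) * c2

theorem pc_ea (α β x y : Cv m) : bb false α β * bb true α β * ea α β x y = 0 := by
  unfold ea
  have a1 := p_p false α β
  have a2 := p_p true α β
  have b1 := p_nn false α β x y
  linear_combination (bb true α β * bb true x y) * a1 + (bb false α β * bb false x y) * a2 +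
    (bb true α β * nn true α β x y) * b1

/-- the sum of the summands -/
noncomputable def Es (α β : Cv m) (x y : κ → Cv m) : Zc (I2 m → ℂ) := ∑ a, ea α β (x a) (y a)

theorem Es_sq (α β : Cv m) (x y : κ → Cv m) : Es α β x y ^ 2 =
    ∑ a, ∑ c, bb false α β * bb true α β * (bb false (x c) (y c) * bb true (x a) (y a) +
      bb false (x a) (y a) * bb true (x c) (y c) +
      (bb false (x a) (y c) + bb false (x c) (y a)) *
        (bb true (x a) (y c) + bb true (x c) (y a))) := by
  rw [sq, Es, sum_mul_sum]
  exact sum_congr rfl fun a _ => sum_congr rfl fun c _ => ea_mul _ _ _ _ _ _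

theorem Es_cube (α β : Cv m) (x y : κ → Cv m) : Es α β x y ^ 3 = 0 := by
  rw [pow_succ, Es_sq, sum_mul]
  refine sum_eq_zero fun a _ => ?_
  rw [sum_mul]
  refine sum_eq_zero fun c _ => ?_
  rw [Es, mul_sum]
  refine sum_eq_zero fun b _ => ?_
  have h := pc_ea α β (x b) (y b)
  linear_combination (bb false (x c) (y c) * bb true (x a) (y a) +
      bb false (x a) (y a) * bb true (x c) (y c) +
      (bb false (x a) (y c) + bb false (x c) (y a)) *
        (bb true (x a) (y c) + bb true (x c) (y a))) * h

theorem binom {R : Type} [CommRing R] (w E : R) (hE : E ^ 3 = 0) (k : ℕ) :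
    2 * (w + E) ^ (k + 2) = 2 * w ^ (k + 2) + 2 * (k + 2) * (w ^ (k + 1) * E) +
      (k + 2) * (k + 1) * (w ^ k * E ^ 2) := by
  induction k with
  | zero => push_cast; ring
  | succ k ih =>
    have h1 : 2 * (w + E) ^ (k + 1 + 2) = (2 * (w + E) ^ (k + 2)) * (w + E) := by ring
    rw [h1, ih]
    push_cast
    linear_combination ((k + 2) * (k + 1) * w ^ k) * hE

variable {k : ℕ}

theorem LR_two (w : Zc (I2 m → ℂ)) {α β : Cv m} {x y : κ → Cv m}
    (h : ∀ u v z t : Cv m, 0 ≤ LR m (w * ((bb false u v * bb true u v) *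
      (bb false z t * bb true z t)))) : 0 ≤ LR m (w * Es α β x y ^ 2) := by
  classical
  obtain ⟨q, hq⟩ : ∃ q : κ → κ → κ → κ → ℝ, q = fun a b c d =>
    LR m (w * ((bb false α β * bb true α β) * (bb false (x a) (y b) * bb true (x c) (y d)))) :=
    ⟨_, rfl⟩
  have h1 : LR m (w * Es α β x y ^ 2) = 2 * ((∑ a, ∑ c, q a a c c) + (∑ a, ∑ b, q a b a b) +
      (∑ a, ∑ b, q a b b a)) := by
    have h2 : LR m (w * Es α β x y ^ 2) = ∑ a, ∑ c, (q c c a a + q a a c c + (q a c a c +
        q a c c a + q c a a c + q c a c a)) := by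
      rw [Es_sq, mul_sum, map_sum]
      refine sum_congr rfl fun a _ => ?_
      rw [mul_sum, map_sum]
      refine sum_congr rfl fun c _ => ?_
      rw [hq]
      simp only [← map_add]
      congr 1
      ring
    rw [h2]
    simp only [sum_add_distrib]
    have s1 : ∑ a, ∑ c, q c c a a = ∑ a, ∑ c, q a a c c := sum_comm
    have s2 : ∑ a, ∑ c, q c a a c = ∑ a, ∑ c, q a c c a := sum_comm
    have s3 : ∑ a, ∑ c, q c a c a = ∑ a, ∑ c, q a c a c := sum_comm
    rw [s1, s2, s3]
    ring
  rw [h1]
  refine mul_nonneg (by norm_num) (four_nonneg q ?_ ?_)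
  · intro ε
    have h3 := h α β (∑ a, sg (ε a) • x a) (∑ a, sg (ε a) • y a)
    have h4 : LR m (w * ((bb false α β * bb true α β) *
        (bb false (∑ a, sg (ε a) • x a) (∑ a, sg (ε a) • y a) *
          bb true (∑ a, sg (ε a) • x a) (∑ a, sg (ε a) • y a)))) = ∑ a, ∑ b, ∑ c, ∑ d,
        sg (ε a) * sg (ε b) * (sg (ε c) * sg (ε d)) * q a b c d := by
      rw [bb_sum, bb_sum, sum_mul, mul_sum, mul_sum, map_sum]
      refine sum_congr rfl fun a _ => ?_
      rw [sum_mul, mul_sum, mul_sum, map_sum]
      refine sum_congr rfl fun b _ => ?_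
      rw [mul_sum, mul_sum, mul_sum, map_sum]
      refine sum_congr rfl fun c _ => ?_
      rw [mul_sum, mul_sum, mul_sum, map_sum]
      refine sum_congr rfl fun d _ => ?_
      rw [hq]
      have e : w * (bb false α β * bb true α β *
          ((((sg (ε a) * sg (ε b) : ℝ) : ℂ) • bb false (x a) (y b)) *
            (((sg (ε c) * sg (ε d) : ℝ) : ℂ) • bb true (x c) (y d)))) =
          (sg (ε a) * sg (ε b) * (sg (ε c) * sg (ε d)) : ℝ) •
            (w * ((bb false α β * bb true α β) * (bb false (x a) (y b) * bb true (x c) (y d)))) := by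
        rw [← Complex.coe_smul]
        simp only [Algebra.smul_def, Complex.ofReal_mul, map_mul]
        ring
      rw [e, map_smul, smul_eq_mul]
    rw [← h4]
    exact h3
  · intro a
    rw [hq]
    exact h α β (x a) (y a)

/-- **The expansion.** -/
theorem LR_main (w : Zc (I2 m → ℂ)) {α β : Cv m} {x y : κ → Cv m}
    (h0 : 0 ≤ LR m (w ^ (k + 2)))
    (h1 : ∀ a, 0 ≤ LR m (w ^ (k + 1) * ea α β (x a) (y a)))
    (h2 : ∀ u v z t : Cv m, 0 ≤ LR m (w ^ k * ((bb false u v * bb true u v) *
      (bb false z t * bb true z t)))) :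
    0 ≤ LR m ((w + 4 * Es α β x y) ^ (k + 2)) := by
  have hc : (4 * Es α β x y) ^ 3 = 0 := by
    rw [mul_pow, Es_cube, mul_zero]
  have hb := binom w (4 * Es α β x y) hc k
  have e1 : (2 : ℝ) • (w + 4 * Es α β x y) ^ (k + 2) = (2 : ℝ) • w ^ (k + 2) +
      (8 * ((k : ℝ) + 2)) • (w ^ (k + 1) * Es α β x y) +
      (16 * (((k : ℝ) + 2) * ((k : ℝ) + 1))) • (w ^ k * Es α β x y ^ 2) := by
    simp only [Algebra.smul_def, map_mul, map_add, map_ofNat, map_natCast, map_one]
    rw [hb]
    ring
  have e2 := congrArg (LR m) e1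
  rw [map_smul, map_add, map_add, map_smul, map_smul, map_smul] at e2
  simp only [smul_eq_mul] at e2
  have h3 : 0 ≤ LR m (w ^ (k + 1) * Es α β x y) := by
    rw [Es, mul_sum, map_sum]
    exact sum_nonneg fun a _ => h1 a
  have h4 := LR_two (w ^ k) (α := α) (β := β) (x := x) (y := y) h2
  have h5 : 0 ≤ 2 * LR m ((w + 4 * Es α β x y) ^ (k + 2)) := by
    rw [e2]
    positivity
  linarith

end alg

end Pool.Agent.K1H57.PS
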