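import Pool.Agent.K1H57.PS.Place

/-!
# The components of an even tensor
-/

set_option autoImplicit false

namespace Pool.Agent.K1H57.PS

open Pool.Agent.Y195.HF Pool.Agent.W666.GB Pool.Agent.W669.HD Pool.Agent.Y519.HB Finset

variable {m : ℕ}

theorem anti_zero {J : Type} [DecidableEq J] {p q : J} {f : J → J → ℝ}
    (ha : ∀ i j, f j i = - f i j) (h1 : f p q = 0) (h2 : ∀ w, w ≠ p → w ≠ q → f p w = 0)
    (h3 : ∀ w, w ≠ p → w ≠ q → f q w = 0)
    (h4 : ∀ v w, v ≠ p → v ≠ q → w ≠ p → w ≠ q → f v w = 0) (i j : J) : f i j = 0 := by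
  have hd : ∀ i, f i i = 0 := fun i => by have := ha i i; linarith
  have ha' : ∀ i j, f i j = 0 → f j i = 0 := fun i j h => by rw [ha i j, h, neg_zero]
  by_cases hi : i = p
  · subst hi
    by_cases hj : j = i
    · subst hj; exact hd _
    · by_cases hj' : j = q
      · subst hj'; exact h1
      · exact h2 j hj hj'
  · by_cases hi' : i = q
    · subst hi'
      by_cases hj : j = p
      · subst hj; exact ha' _ _ h1
      · by_cases hj' : j = i
        · subst hj'; exact hd _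
        · exact h3 j hj hj'
    · by_cases hj : j = p
      · subst hj; exact ha' _ _ (h2 i hi hi')
      · by_cases hj' : j = q
        · subst hj'; exact ha' _ _ (h3 i hi hi')
        · exact h4 i j hi hi' hj hj'

theorem anti_zero4 {J : Type} [DecidableEq J] {p q : J} {D : J → J → J → J → ℝ}
    (ha : ∀ i j k l, D j i k l = - D i j k l) (hp : ∀ i j k l, D k l i j = D i j k l)
    (c1 : D p q p q = 0) (c2 : ∀ w, w ≠ p → w ≠ q → D p q p w = 0)
    (c3 : ∀ w, w ≠ p → w ≠ q → D p q q w = 0)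
    (c4 : ∀ v w, v ≠ p → v ≠ q → w ≠ p → w ≠ q → D p q v w = 0)
    (c5 : ∀ v w, v ≠ p → v ≠ q → w ≠ p → w ≠ q → D p v p w = 0)
    (c6 : ∀ v w, v ≠ p → v ≠ q → w ≠ p → w ≠ q → D p v q w = 0)
    (c7 : ∀ v w, v ≠ p → v ≠ q → w ≠ p → w ≠ q → D q v q w = 0)
    (c8 : ∀ u v w, u ≠ p → u ≠ q → v ≠ p → v ≠ q → w ≠ p → w ≠ q → D p u v w = 0)
    (c9 : ∀ u v w, u ≠ p → u ≠ q → v ≠ p → v ≠ q → w ≠ p → w ≠ q → D q u v w = 0)
    (c10 : ∀ t u v w, t ≠ p → t ≠ q → u ≠ p → u ≠ q → v ≠ p → v ≠ q → w ≠ p → w ≠ q →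
      D t u v w = 0) (i j k l : J) : D i j k l = 0 := by
  have ha' : ∀ i j k l, D i j l k = - D i j k l := fun i j k l => by
    rw [← hp i j l k, ha, hp]
  refine anti_zero (p := p) (q := q) (f := fun i j => D i j k l) (fun i j => ha i j k l)
    ?_ ?_ ?_ ?_ i j
  · refine anti_zero (p := p) (q := q) (f := fun k l => D p q k l) (fun i j => ha' _ _ i j)
      c1 c2 c3 c4 k l
  · intro w w1 w2
    refine anti_zero (p := p) (q := q) (f := fun k l => D p w k l) (fun i j => ha' _ _ i j)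
      ?_ ?_ ?_ ?_ k l
    · rw [← hp]; exact c2 w w1 w2
    · intro v v1 v2; exact c5 w v w1 w2 v1 v2
    · intro v v1 v2; exact c6 w v w1 w2 v1 v2
    · intro u v u1 u2 v1 v2; exact c8 w u v w1 w2 u1 u2 v1 v2
  · intro w w1 w2
    refine anti_zero (p := p) (q := q) (f := fun k l => D q w k l) (fun i j => ha' _ _ i j)
      ?_ ?_ ?_ ?_ k l
    · rw [← hp]; exact c3 w w1 w2
    · intro v v1 v2; rw [← hp]; exact c6 v w v1 v2 w1 w2
    · intro v v1 v2; exact c7 w v w1 w2 v1 v2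
    · intro u v u1 u2 v1 v2; exact c9 w u v w1 w2 u1 u2 v1 v2
  · intro t w t1 t2 w1 w2
    refine anti_zero (p := p) (q := q) (f := fun k l => D t w k l) (fun i j => ha' _ _ i j)
      ?_ ?_ ?_ ?_ k l
    · rw [← hp]; exact c4 t w t1 t2 w1 w2
    · intro v v1 v2; rw [← hp]; exact c8 v t w v1 v2 t1 t2 w1 w2
    · intro v v1 v2; rw [← hp]; exact c9 v t w v1 v2 t1 t2 w1 w2
    · intro u v u1 u2 v1 v2; exact c10 t w u v t1 t2 w1 w2 u1 u2 v1 v2

/-- a coordinate covector -/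
def dl (p : Fin m × Bool) : Cv m := fun i => if i = p then 1 else 0

theorem dl_self (p : Fin m × Bool) : dl p p = 1 := by simp [dl]

theorem dl_ne {p i : Fin m × Bool} (h : i ≠ p) : dl p i = 0 := by simp [dl, h]

theorem wd_anti (u v : Cv m) (i j : Fin m × Bool) : wd u v j i = - wd u v i j := by
  unfold wd; ring

theorem Bt_anti {κ : Type} [Fintype κ] (α β : Cv m) (x y : κ → Cv m) (i j k l : Fin m × Bool) :
    Bt α β x y j i k l = - Bt α β x y i j k l := by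
  unfold Bt
  rw [← sum_neg_distrib]
  refine sum_congr rfl fun a _ => ?_
  rw [wd_anti α β i j, wd_anti (x a) (y a) i j, wd_anti α (x a) i j, wd_anti β (y a) i j]
  ring

theorem Bt_pair {κ : Type} [Fintype κ] (α β : Cv m) (x y : κ → Cv m) (i j k l : Fin m × Bool) :
    Bt α β x y k l i j = Bt α β x y i j k l := by
  unfold Bt
  refine sum_congr rfl fun a _ => ?_
  ring

theorem split_comp {K C : T4 m} {p q : Fin m × Bool} (hpq : p ≠ q) (hK : Cu K) (hC : Cu C)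
    (hCp : Off p C) (hCq : Off q C)
    (hCW : ∀ t u v w, t ≠ p → t ≠ q → u ≠ p → u ≠ q → v ≠ p → v ≠ q → w ≠ p → w ≠ q →
      C t u v w = K t u v w)
    (o1 : ∀ u v w, u ≠ p → u ≠ q → v ≠ p → v ≠ q → w ≠ p → w ≠ q → K p u v w = 0)
    (o2 : ∀ u v w, u ≠ p → u ≠ q → v ≠ p → v ≠ q → w ≠ p → w ≠ q → K q u v w = 0)
    (o3 : ∀ w, w ≠ p → w ≠ q → K p q p w = 0) (o4 : ∀ w, w ≠ p → w ≠ q → K p q q w = 0)
    {κ : Type} [Fintype κ] {x y : κ → Cv m} (hx : ∀ a, x a p = 0) (hy : ∀ a, y a p = 0)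
    (hy' : ∀ a, y a q = 0) (s1 : ∑ a, x a q * x a q = K p q p q)
    (s2 : ∀ w, w ≠ p → w ≠ q → ∑ a, x a q * x a w = 0)
    (s3 : ∀ w, w ≠ p → w ≠ q → ∑ a, x a q * y a w = 0)
    (s4 : ∀ v w, v ≠ p → v ≠ q → w ≠ p → w ≠ q → ∑ a, x a v * x a w = K p v p w)
    (s5 : ∀ v w, v ≠ p → v ≠ q → w ≠ p → w ≠ q → ∑ a, x a v * y a w = K p v q w)
    (s6 : ∀ v w, v ≠ p → v ≠ q → w ≠ p → w ≠ q → ∑ a, y a v * y a w = K q v q w)
    (i j k l : Fin m × Bool) : K i j k l = C i j k l + Bt (dl p) (dl q) x y i j k l := by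
  have hqp : q ≠ p := Ne.symm hpq
  have d1 : dl p p = 1 := dl_self p
  have d2 : dl q q = 1 := dl_self q
  have d3 : dl p q = 0 := dl_ne hqp
  have d4 : dl q p = 0 := dl_ne hpq
  have h := anti_zero4 (p := p) (q := q)
    (D := fun i j k l => K i j k l - C i j k l - Bt (dl p) (dl q) x y i j k l)
    (fun i j k l => by rw [hK.a12, hC.a12, Bt_anti]; ring)
    (fun i j k l => by rw [hK.pair, hC.pair, Bt_pair]) ?_ ?_ ?_ ?_ ?_ ?_ ?_ ?_ ?_ ?_ i j k l
  · linarith
  · rw [hCp.s1, ← s1]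
    simp only [Bt, wd, d1, d2, d3, d4, hx, hy, hy']
    rw [sub_zero, sub_eq_zero]
    refine sum_congr rfl fun a _ => ?_
    ring
  · intro w w1 w2
    have d5 : dl p w = 0 := dl_ne w1
    have d6 : dl q w = 0 := dl_ne w2
    rw [hCp.s1, o3 w w1 w2, sub_zero, zero_sub, neg_eq_zero]
    rw [← s2 w w1 w2]
    simp only [Bt, wd, d1, d2, d3, d4, d5, d6, hx, hy, hy']
    refine sum_congr rfl fun a _ => ?_
    ring
  · intro w w1 w2
    have d5 : dl p w = 0 := dl_ne w1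
    have d6 : dl q w = 0 := dl_ne w2
    rw [hCp.s1, o4 w w1 w2, sub_zero, zero_sub, neg_eq_zero]
    have e : Bt (dl p) (dl q) x y p q q w = 2 * ∑ a, x a q * y a w := by
      rw [mul_sum]
      simp only [Bt, wd, d1, d2, d3, d4, d5, d6, hx, hy, hy']
      refine sum_congr rfl fun a _ => ?_
      ring
    rw [e, s3 w w1 w2, mul_zero]
  · intro v w v1 v2 w1 w2
    have d5 : dl p w = 0 := dl_ne w1
    have d6 : dl q w = 0 := dl_ne w2
    have d7 : dl p v = 0 := dl_ne v1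
    have d8 : dl q v = 0 := dl_ne v2
    rw [hCp.s1]
    have e : Bt (dl p) (dl q) x y p q v w = ∑ a, x a v * y a w - ∑ a, x a w * y a v := by
      rw [← sum_sub_distrib]
      simp only [Bt, wd, d1, d2, d3, d4, d5, d6, d7, d8, hx, hy, hy']
      refine sum_congr rfl fun a _ => ?_
      ring
    rw [e, s5 v w v1 v2 w1 w2, s5 w v w1 w2 v1 v2]
    have b1 := hK.bia p q v w
    have b2 := hK.a12 p v q w
    have b3 := hK.pair q v p w
    have b4 := hK.pair p w q v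
    linarith
  · intro v w v1 v2 w1 w2
    have d5 : dl p w = 0 := dl_ne w1
    have d6 : dl q w = 0 := dl_ne w2
    have d7 : dl p v = 0 := dl_ne v1
    have d8 : dl q v = 0 := dl_ne v2
    rw [hCp.s1, ← s4 v w v1 v2 w1 w2]
    simp only [Bt, wd, d1, d2, d3, d4, d5, d6, d7, d8, hx, hy, hy']
    rw [sub_zero, sub_eq_zero]
    refine sum_congr rfl fun a _ => ?_
    ring
  · intro v w v1 v2 w1 w2
    have d5 : dl p w = 0 := dl_ne w1
    have d6 : dl q w = 0 := dl_ne w2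
    have d7 : dl p v = 0 := dl_ne v1
    have d8 : dl q v = 0 := dl_ne v2
    rw [hCp.s1, ← s5 v w v1 v2 w1 w2]
    simp only [Bt, wd, d1, d2, d3, d4, d5, d6, d7, d8, hx, hy, hy']
    rw [sub_zero, sub_eq_zero]
    refine sum_congr rfl fun a _ => ?_
    ring
  · intro v w v1 v2 w1 w2
    have d5 : dl p w = 0 := dl_ne w1
    have d6 : dl q w = 0 := dl_ne w2
    have d7 : dl p v = 0 := dl_ne v1
    have d8 : dl q v = 0 := dl_ne v2
    rw [hCq.s1, ← s6 v w v1 v2 w1 w2]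
    simp only [Bt, wd, d1, d2, d3, d4, d5, d6, d7, d8, hx, hy, hy']
    rw [sub_zero, sub_eq_zero]
    refine sum_congr rfl fun a _ => ?_
    ring
  · intro u v w u1 u2 v1 v2 w1 w2
    have d5 : dl p w = 0 := dl_ne w1
    have d6 : dl q w = 0 := dl_ne w2
    have d7 : dl p v = 0 := dl_ne v1
    have d8 : dl q v = 0 := dl_ne v2
    have d9 : dl p u = 0 := dl_ne u1
    have d10 : dl q u = 0 := dl_ne u2
    rw [hCp.s1, o1 u v w u1 u2 v1 v2 w1 w2, sub_zero, zero_sub, neg_eq_zero]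
    simp only [Bt, wd, d1, d2, d3, d4, d5, d6, d7, d8, d9, d10, hx, hy, hy']
    refine sum_eq_zero fun a _ => ?_
    ring
  · intro u v w u1 u2 v1 v2 w1 w2
    have d5 : dl p w = 0 := dl_ne w1
    have d6 : dl q w = 0 := dl_ne w2
    have d7 : dl p v = 0 := dl_ne v1
    have d8 : dl q v = 0 := dl_ne v2
    have d9 : dl p u = 0 := dl_ne u1
    have d10 : dl q u = 0 := dl_ne u2
    rw [hCq.s1, o2 u v w u1 u2 v1 v2 w1 w2, sub_zero, zero_sub, neg_eq_zero]
    simp only [Bt, wd, d1, d2, d3, d4, d5, d6, d7, d8, d9, d10, hx, hy, hy']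
    refine sum_eq_zero fun a _ => ?_
    ring
  · intro t u v w t1 t2 u1 u2 v1 v2 w1 w2
    have d5 : dl p w = 0 := dl_ne w1
    have d6 : dl q w = 0 := dl_ne w2
    have d7 : dl p v = 0 := dl_ne v1
    have d8 : dl q v = 0 := dl_ne v2
    have d9 : dl p u = 0 := dl_ne u1
    have d10 : dl q u = 0 := dl_ne u2
    have d11 : dl p t = 0 := dl_ne t1
    have d12 : dl q t = 0 := dl_ne t2
    rw [hCW t u v w t1 t2 u1 u2 v1 v2 w1 w2, sub_self, zero_sub, neg_eq_zero]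
    simp only [Bt, wd, d1, d2, d3, d4, d5, d6, d7, d8, d9, d10, d11, d12, hx, hy, hy']
    refine sum_eq_zero fun a _ => ?_
    ring

end Pool.Agent.K1H57.PS
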