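import Pool.Agent.K1H57.PS.Comp
import Pool.Agent.Y519.HB.Last

/-!
# Curvature tensors invariant under the half turn about a subspace of codimension two
-/

set_option autoImplicit false

namespace Pool.Agent.K1H57.PS

open Pool.Agent.Y195.HF Pool.Agent.W666.GB Pool.Agent.W669.HD Pool.Agent.Y519.HB Finset

variable {V : Type} [NormedAddCommGroup V] [InnerProductSpace ℝ V]

/-- The Gauss–Bonnet–Chern integrand of the restriction of `R` to every subspace of `U` of
dimension `2 k` has the sign of the Hopf conjecture. -/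
def HopfDim (k : ℕ) (U : Submodule ℝ V) (R : V → V → V → V → ℝ) : Prop :=
  ∀ E : Submodule ℝ V, E ≤ U → ∀ e : OrthonormalBasis (Fin k × Bool) ℝ E,
    0 ≤ (-1) ^ k * gbc e (fun x y z w : E => R x y z w)

/-- `R x y z w` vanishes when one or three of the arguments lie in `P` and the others are
orthogonal to `P` (by the curvature symmetries it is enough to require this for the arguments in
the order below). -/
def EvenSplit (P : Submodule ℝ V) (R : V → V → V → V → ℝ) : Prop :=
  (∀ x ∈ P, ∀ u ∈ Pᗮ, ∀ v ∈ Pᗮ, ∀ w ∈ Pᗮ, R x u v w = 0) ∧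
  (∀ x ∈ P, ∀ y ∈ P, ∀ z ∈ P, ∀ u ∈ Pᗮ, R x y z u = 0)

theorem sum_two {R : V → V → V → V → ℝ} (hR : AlgCurv R) {J : Type} [Fintype J] (x z : V)
    (c d : J → ℝ) (f g : J → V) : R x (∑ i, c i • f i) z (∑ i, d i • g i) =
      ∑ i, ∑ j, R x (f i) z (g j) * (c i * d j) := by
  have hbi := Pool.Agent.W150.HD.curv_bi hR
  have s2 : ∀ (c : J → ℝ) (f : J → V) (u v w : V), R u (∑ i, c i • f i) v w =
      ∑ i, c i * R u (f i) v w := by
    intro c f u v w
    have h2 : R u (∑ i, c i • f i) v w = - R (∑ i, c i • f i) u v w := by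
      rw [hR.anti u]; ring
    rw [h2, Pool.Agent.W150.HD.sumK hbi univ c f u v w, ← sum_neg_distrib]
    refine sum_congr rfl fun i _ => ?_
    rw [hR.anti u (f i)]
    ring
  rw [s2]
  refine sum_congr rfl fun i _ => ?_
  rw [← hR.pair, s2, mul_sum]
  refine sum_congr rfl fun j _ => ?_
  rw [hR.pair]
  ring

/-- restriction to a subspace, extended by zero -/
noncomputable def resT (U : Submodule ℝ V) [U.HasOrthogonalProjection] (R : V → V → V → V → ℝ)
    (x y z w : V) : ℝ :=
  R (U.starProjection x) (U.starProjection y) (U.starProjection z) (U.starProjection w)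

theorem res_curv (U : Submodule ℝ V) [U.HasOrthogonalProjection] {R : V → V → V → V → ℝ}
    (hR : AlgCurv R) : AlgCurv (resT U R) where
  add x x' y z w := by simp only [resT, map_add]; rw [hR.add]
  smul t x y z w := by simp only [resT, map_smul]; rw [hR.smul]
  anti x y z w := by simp only [resT]; rw [hR.anti]
  pair x y z w := by simp only [resT]; rw [hR.pair]
  bianchi x y z w := by simp only [resT]; exact hR.bianchi _ _ _ _

theorem curv_zero {R : V → V → V → V → ℝ} (hR : AlgCurv R) (y z w : V) : R 0 y z w = 0 := by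
  have := hR.smul 0 0 y z w
  simpa using this

theorem curv_zero2 {R : V → V → V → V → ℝ} (hR : AlgCurv R) (y z w : V) : R y 0 z w = 0 := by
  rw [hR.anti, curv_zero hR, neg_zero]

theorem res_lives (U : Submodule ℝ V) [U.HasOrthogonalProjection] {R : V → V → V → V → ℝ}
    (hR : AlgCurv R) : LivesOn U (resT U R) := by
  intro x hx y z w
  unfold resT
  have : U.starProjection x = 0 := by
    rw [Submodule.starProjection_apply_eq_zero_iff]
    exact hx
  rw [this, curv_zero hR]

theorem res_hopf (U : Submodule ℝ V) [U.HasOrthogonalProjection] {R : V → V → V → V → ℝ} {k : ℕ}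
    (h : HopfDim k U R) : HopfDim k U (resT U R) := by
  intro E hE e
  have h1 : (fun x y z w : E => resT U R x y z w) = fun x y z w : E => R x y z w := by
    funext x y z w
    have hp : ∀ x : E, U.starProjection (x : V) = x := fun x =>
      Submodule.starProjection_eq_self_iff.mpr (hE x.2)
    simp only [resT, hp]
  rw [h1]
  exact h E hE e

theorem her_res {m : ℕ} (e : OrthonormalBasis (Fin m × Bool) ℝ V) (U : Submodule ℝ V)
    [U.HasOrthogonalProjection] {R : V → V → V → V → ℝ} (hR : AlgCurv R) {k : ℕ}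
    (h : HopfDim k U R) : HerN k (cp e (negT (resT U R))) := by
  intro T _ _ hT y
  subst hT
  exact EE_of_hopf e (res_curv U hR) (res_lives U hR) (fun E hE ε => res_hopf U h E hE ε) y

theorem two_indices {m : ℕ} (e : OrthonormalBasis (Fin m × Bool) ℝ V) {P : Submodule ℝ V}
    (hP : Module.finrank ℝ P = 2) {col : Fin m × Bool → Bool}
    (h : ∀ j, e j ∈ (if col j = true then Pᗮ else P)) :
    ∃ p q : Fin m × Bool, p ≠ q ∧ e p ∈ P ∧ e q ∈ P ∧ ∀ j, j ≠ p → j ≠ q → e j ∈ Pᗮ := by
  classical
  have hfin : FiniteDimensional ℝ V := Module.Finite.of_basis e.toBasis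
  have hn : Module.finrank ℝ V = Fintype.card (Fin m × Bool) :=
    Module.finrank_eq_card_basis e.toBasis
  have key : ∀ (b : Bool) (U : Submodule ℝ V), (∀ j, col j = b → e j ∈ U) →
      (univ.filter fun j => col j = b).card ≤ Module.finrank ℝ U := by
    intro b U hU
    have hli : LinearIndependent ℝ (fun j : {j // col j = b} => (⟨e j, hU j j.2⟩ : U)) := by
      refine LinearIndependent.of_comp U.subtype ?_
      exact e.orthonormal.linearIndependent.comp _ Subtype.val_injective
    have h1 := hli.fintype_card_le_finrank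
    rwa [Fintype.card_subtype] at h1
  have h0 := key false P (fun j hj => by have := h j; rwa [hj, if_neg (by simp)] at this)
  have h1 := key true Pᗮ (fun j hj => by have := h j; rwa [hj, if_pos rfl] at this)
  have h2 : (univ.filter fun j => col j = false).card + (univ.filter fun j => col j = true).card =
      Fintype.card (Fin m × Bool) := by
    rw [← card_univ, ← card_union_of_disjoint]
    · congr 1
      ext j
      simp only [mem_union, mem_filter, mem_univ, true_and, iff_true]
      cases col j <;> simp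
    · rw [disjoint_filter]
      intro j _ hj
      rw [hj]
      simp
  have h3 := Submodule.finrank_add_finrank_orthogonal P
  rw [hn] at h3
  have h4 : (univ.filter fun j => col j = false).card = 2 := by omega
  obtain ⟨p, q, hpq, hA⟩ := card_eq_two.mp h4
  have hmem : ∀ j, col j = false ↔ (j = p ∨ j = q) := by
    intro j
    have : j ∈ (univ.filter fun j => col j = false) ↔ j ∈ ({p, q} : Finset _) := by rw [hA]
    simpa using this
  refine ⟨p, q, hpq, ?_, ?_, ?_⟩
  · have := h p
    rwa [(hmem p).mpr (Or.inl rfl), if_neg (by simp)] at this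
  · have := h q
    rwa [(hmem q).mpr (Or.inr rfl), if_neg (by simp)] at this
  · intro j hj hj'
    have h5 : col j = true := by
      by_contra hc
      rw [Bool.not_eq_true, hmem] at hc
      rcases hc with hc | hc
      · exact hj hc
      · exact hj' hc
    have := h j
    rwa [h5, if_pos rfl] at this

/-- **The pointwise theorem.** -/
theorem even_split {k : ℕ} (e : OrthonormalBasis (Fin (k + 2) × Bool) ℝ V)
    {R : V → V → V → V → ℝ} (hR : AlgCurv R) {P : Submodule ℝ V}
    (hP : Module.finrank ℝ P = 2) (hE : EvenSplit P R)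
    (hN : ∀ x ∈ P, ∀ y ∈ P, ∀ u ∈ Pᗮ, ∀ v ∈ Pᗮ, R x u x u + 2 * R x u y v + R y v y v ≤ 0)
    (h1 : (∀ x ∈ P, ∀ y ∈ P, R x y x y = 0) ∨
      ((∀ x ∈ P, ∀ y ∈ P, R x y x y ≤ 0) ∧ HopfDim (k + 1) Pᗮ R))
    (h2 : HopfDim k Pᗮ R) : 0 ≤ (-1) ^ (k + 2) * gbc e R := by
  classical
  have hfin : FiniteDimensional ℝ V := Module.Finite.of_basis e.toBasis
  obtain ⟨e', col, hcol⟩ := adapted e (fun b : Bool => if b = true then Pᗮ else P) (by
    intro i j hij x hx y hy
    cases i <;> cases j
    · exact absurd rfl hij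
    · simp only [Bool.false_eq_true, if_false, if_true] at hx hy
      exact hy x hx
    · simp only [Bool.false_eq_true, if_false, if_true] at hx hy
      rw [real_inner_comm]
      exact hx y hy
    · exact absurd rfl hij) (by
    rw [iSup_bool_eq]
    simp only [Bool.false_eq_true, if_false, if_true]
    rw [sup_comm]
    exact Submodule.sup_orthogonal_of_hasOrthogonalProjection)
  obtain ⟨p, q, hpq, hp, hq, hW⟩ := two_indices e' hP hcol
  rw [Pool.Agent.W688.HD.bas (k + 2) V e e' R hR, gbc_eq]
  have hπ := Real.pi_pos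
  have hc : 0 < 1 / ((8 * Real.pi) ^ (k + 2) * ((k + 2).factorial : ℝ)) := by positivity
  refine mul_nonneg hc.le ?_
  have hκ : ∀ x ∈ P, ∀ y ∈ P, R x y x y ≤ 0 := by
    rcases h1 with h1 | h1
    · intro x hx y hy
      rw [h1 x hx y hy]
    · exact h1.1
  -- the Gram matrix
  obtain ⟨g, hg⟩ : ∃ g : Bool → V, g = fun s => if s = true then e' q else e' p := ⟨_, rfl⟩
  obtain ⟨f, hf⟩ : ∃ f : Bool × (Fin (k + 2) × Bool) → V, f = fun a =>
    if a.2 = p ∨ (a.1 = true ∧ a.2 = q) then 0 else e' a.2 := ⟨_, rfl⟩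
  have f1 : f (false, p) = 0 := by rw [hf]; simp
  have f2 : f (true, p) = 0 := by rw [hf]; simp
  have f3 : f (true, q) = 0 := by rw [hf]; simp
  have f4 : f (false, q) = e' q := by rw [hf]; simp [Ne.symm hpq]
  have f5 : ∀ s w, w ≠ p → w ≠ q → f (s, w) = e' w := by
    intro s w w1 w2
    rw [hf]; simp [w1, w2]
  have g1 : g false = e' p := by rw [hg]; simp
  have g2 : g true = e' q := by rw [hg]; simp
  obtain ⟨B, hB⟩ := sq_real (J := Bool × (Fin (k + 2) × Bool))
    (fun a b => - R (g a.1) (f a) (g b.1) (f b)) (fun a b => by rw [hR.pair]) (by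
      intro c
      have e1 : ∑ a, ∑ b, -R (g a.1) (f a) (g b.1) (f b) * (c a * c b) =
          - ∑ s, ∑ t, R (g s) (∑ i, c (s, i) • f (s, i)) (g t) (∑ i, c (t, i) • f (t, i)) := by
        rw [Fintype.sum_prod_type, ← sum_neg_distrib]
        refine sum_congr rfl fun s _ => ?_
        have e2 : ∀ t, R (g s) (∑ i, c (s, i) • f (s, i)) (g t) (∑ i, c (t, i) • f (t, i)) =
            ∑ i, ∑ j, R (g s) (f (s, i)) (g t) (f (t, j)) * (c (s, i) * c (t, j)) := fun t =>
          sum_two hR (g s) (g t) (fun i => c (s, i)) (fun i => c (t, i)) (fun i => f (s, i))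
            (fun i => f (t, i))
        simp only [e2]
        rw [← sum_neg_distrib]
        have e3 : ∀ i, ∑ b, -R (g s) (f (s, i)) (g b.1) (f b) * (c (s, i) * c b) =
            ∑ t, ∑ j, -R (g s) (f (s, i)) (g t) (f (t, j)) * (c (s, i) * c (t, j)) := fun i =>
          Fintype.sum_prod_type _
        simp only [e3]
        rw [Finset.sum_comm]
        refine sum_congr rfl fun t _ => ?_
        rw [← sum_neg_distrib]
        refine sum_congr rfl fun i _ => ?_
        rw [← sum_neg_distrib]
        refine sum_congr rfl fun j _ => ?_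
        ring
      rw [e1]
      obtain ⟨u, hu⟩ : ∃ u, u = ∑ i ∈ univ.erase q, c (false, i) • f (false, i) := ⟨_, rfl⟩
      obtain ⟨v, hv⟩ : ∃ v, v = ∑ i, c (true, i) • f (true, i) := ⟨_, rfl⟩
      have huW : u ∈ Pᗮ := by
        rw [hu]
        refine Submodule.sum_mem _ fun i hi => Submodule.smul_mem _ _ ?_
        by_cases hip : i = p
        · rw [hip, f1]; exact Submodule.zero_mem _
        · rw [f5 false i hip (ne_of_mem_erase hi)]
          exact hW i hip (ne_of_mem_erase hi)
      have hvW : v ∈ Pᗮ := by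
        rw [hv]
        refine Submodule.sum_mem _ fun i _ => Submodule.smul_mem _ _ ?_
        by_cases hip : i = p
        · rw [hip, f2]; exact Submodule.zero_mem _
        · by_cases hiq : i = q
          · rw [hiq, f3]; exact Submodule.zero_mem _
          · rw [f5 true i hip hiq]
            exact hW i hip hiq
      have hU : ∑ i, c (false, i) • f (false, i) = c (false, q) • e' q + u := by
        rw [hu, ← f4]
        exact (Finset.add_sum_erase _ _ (mem_univ q)).symm
      simp only [Fintype.sum_bool]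
      rw [← hv, hU, g1, g2]
      -- multilinearity
      have a2 : ∀ x y y' z w, R x (y + y') z w = R x y z w + R x y' z w := by
        intro x y y' z w
        rw [hR.anti (y + y') x, hR.anti y x, hR.anti y' x, hR.add]; ring
      have a2s : ∀ (t : ℝ) x y z w, R x (t • y) z w = t * R x y z w := by
        intro t x y z w
        rw [hR.anti (t • y) x, hR.anti y x, hR.smul]; ring
      have a4 : ∀ x y z w w', R x y z (w + w') = R x y z w + R x y z w' := by
        intro x y z w w'
        rw [← hR.pair x y z (w + w'), a2, hR.pair x y z w, hR.pair x y z w']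
      have a4s : ∀ (t : ℝ) x y z w, R x y z (t • w) = t * R x y z w := by
        intro t x y z w
        rw [← hR.pair, a2s, hR.pair]
      have z1 : ∀ w ∈ Pᗮ, R (e' p) (e' q) (e' p) w = 0 := fun w hw => hE.2 _ hp _ hq _ hp w hw
      have z2 : ∀ w ∈ Pᗮ, R (e' p) (e' q) (e' q) w = 0 := fun w hw => hE.2 _ hp _ hq _ hq w hw
      have z3 : R (e' p) u (e' p) (e' q) = 0 := by rw [← hR.pair]; exact z1 u huW
      have z4 : R (e' q) v (e' p) (e' q) = 0 := by rw [← hR.pair]; exact z2 v hvW
      simp only [a2, a2s, a4, a4s, z1 u huW, z2 v hvW, z3, z4]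
      have n1 := hN _ hp _ hq u huW v hvW
      have n2 := hκ _ hp _ hq
      have n3 := hR.pair (e' p) u (e' q) v
      have n4 : 0 ≤ c (false, q) * c (false, q) * - R (e' p) (e' q) (e' p) (e' q) :=
        mul_nonneg (mul_self_nonneg _) (by linarith)
      rw [n3]
      linarith)
  -- the covectors
  obtain ⟨x, hx⟩ : ∃ x : Bool × (Fin (k + 2) × Bool) → Cv (k + 2), x = fun a i => B a (false, i) :=
    ⟨_, rfl⟩
  obtain ⟨y, hy⟩ : ∃ y : Bool × (Fin (k + 2) × Bool) → Cv (k + 2), y = fun a i => B a (true, i) :=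
    ⟨_, rfl⟩
  have zer : ∀ r, f r = 0 → ∀ a, B a r = 0 := by
    intro r hr a
    have h3 := hB r r
    rw [hr, curv_zero2 hR, neg_zero] at h3
    have h4 := (Finset.sum_eq_zero_iff_of_nonneg fun a _ => mul_self_nonneg (B a r)).mp h3.symm a
      (mem_univ a)
    exact mul_self_eq_zero.mp h4
  have hxp : ∀ a, x a p = 0 := fun a => by rw [hx]; exact zer _ f1 a
  have hyp : ∀ a, y a p = 0 := fun a => by rw [hy]; exact zer _ f2 a
  have hyq : ∀ a, y a q = 0 := fun a => by rw [hy]; exact zer _ f3 a
  have t1 : ∑ a, x a q * x a q = cp e' (negT R) p q p q := by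
    rw [hx]
    have h3 := hB (false, q) (false, q)
    simp only [g1, f4] at h3
    simp only [cp, negT]
    exact h3.symm
  -- the restricted tensor
  obtain ⟨C, hCd⟩ : ∃ C, C = cp e' (negT (resT Pᗮ R)) := ⟨_, rfl⟩
  have pr0 : ∀ v ∈ P, Pᗮ.starProjection v = 0 := by
    intro v hv
    rw [Submodule.starProjection_apply_eq_zero_iff]
    exact Submodule.le_orthogonal_orthogonal P hv
  have pr1 : ∀ w, w ≠ p → w ≠ q → Pᗮ.starProjection (e' w) = e' w := by
    intro w w1 w2
    exact Submodule.starProjection_eq_self_iff.mpr (hW w w1 w2)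
  have hCcu : Cu C := by rw [hCd]; exact cu_cp e' (res_curv _ hR)
  have off : ∀ r, e' r ∈ P → Off r C := by
    intro r hr
    have s1 : ∀ j k l, C r j k l = 0 := by
      intro j k l
      rw [hCd]
      simp only [cp, negT, resT]
      rw [pr0 _ hr, curv_zero hR, neg_zero]
    have s2 : ∀ j k l, C j r k l = 0 := by
      intro j k l
      rw [hCcu.a12, s1, neg_zero]
    refine ⟨s1, s2, ?_, ?_⟩
    · intro i j l
      rw [← hCcu.pair, s1]
    · intro i j l
      rw [← hCcu.pair, s2]
  have hsplit := split_comp (K := cp e' (negT R)) (C := C) hpq (cu_cp e' hR) hCcu (off p hp)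
    (off q hq) (by
      intro t u v w t1 t2 u1 u2 v1 v2 w1 w2
      rw [hCd]
      simp only [cp, negT, resT]
      rw [pr1 t t1 t2, pr1 u u1 u2, pr1 v v1 v2, pr1 w w1 w2]) (by
      intro u v w u1 u2 v1 v2 w1 w2
      simp only [cp, negT]
      rw [hE.1 _ hp _ (hW u u1 u2) _ (hW v v1 v2) _ (hW w w1 w2), neg_zero]) (by
      intro u v w u1 u2 v1 v2 w1 w2
      simp only [cp, negT]
      rw [hE.1 _ hq _ (hW u u1 u2) _ (hW v v1 v2) _ (hW w w1 w2), neg_zero]) (by
      intro w w1 w2
      simp only [cp, negT]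
      rw [hE.2 _ hp _ hq _ hp _ (hW w w1 w2), neg_zero]) (by
      intro w w1 w2
      simp only [cp, negT]
      rw [hE.2 _ hp _ hq _ hq _ (hW w w1 w2), neg_zero]) hxp hyp hyq t1 (by
      intro w w1 w2
      rw [hx]
      have h3 := hB (false, q) (false, w)
      simp only [g1, f4, f5 false w w1 w2] at h3
      rw [hE.2 _ hp _ hq _ hp _ (hW w w1 w2), neg_zero] at h3
      exact h3.symm) (by
      intro w w1 w2
      rw [hx, hy]
      have h3 := hB (false, q) (true, w)
      simp only [g1, g2, f4, f5 true w w1 w2] at h3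
      rw [hE.2 _ hp _ hq _ hq _ (hW w w1 w2), neg_zero] at h3
      exact h3.symm) (by
      intro v w v1 v2 w1 w2
      rw [hx]
      have h3 := hB (false, v) (false, w)
      simp only [g1, f5 false w w1 w2, f5 false v v1 v2] at h3
      simp only [cp, negT]
      exact h3.symm) (by
      intro v w v1 v2 w1 w2
      rw [hx, hy]
      have h3 := hB (false, v) (true, w)
      simp only [g1, g2, f5 true w w1 w2, f5 false v v1 v2] at h3
      simp only [cp, negT]
      exact h3.symm) (by
      intro v w v1 v2 w1 w2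
      rw [hy]
      have h3 := hB (true, v) (true, w)
      simp only [g2, f5 true w w1 w2, f5 true v v1 v2] at h3
      simp only [cp, negT]
      exact h3.symm)
  have hfun : cp e' (negT R) = fun i j k l => C i j k l + Bt (dl p) (dl q) x y i j k l := by
    funext i j k l
    exact hsplit i j k l
  rw [hfun]
  refine gm_split (p := p) (off p hp) ?_ (by rw [hCd]; exact her_res e' Pᗮ hR h2)
    (dl_ne hpq) hxp hyp
  rcases h1 with h1 | h1
  · right
    refine ⟨q, off q hq, dl_ne (Ne.symm hpq), ?_⟩
    have h3 : ∑ a, x a q * x a q = 0 := by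
      rw [t1]
      simp only [cp, negT]
      rw [h1 _ hp _ hq, neg_zero]
    intro a
    have h4 := (Finset.sum_eq_zero_iff_of_nonneg fun a _ => mul_self_nonneg (x a q)).mp h3 a
      (mem_univ a)
    exact mul_self_eq_zero.mp h4
  · left
    rw [hCd]
    exact her_res e' Pᗮ hR h1.2

/-- The hypothesis. For some plane `P` with orthogonal complement `W`:
* `R` vanishes when an odd number of arguments lies in `P` and the others in `W`;
* the curvature operator is nonpositive on the bivectors `x ∧ u + y ∧ v` with `x, y` in `P` and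
  `u, v` in `W`;
* the sectional curvature of `P` is zero, or it is nonpositive and the restriction of `R` to `W`
  has the Hopf sign;
* the restrictions of `R` to the subspaces of codimension two of `W` have the Hopf sign. -/
def HalfTurn (m : ℕ) (R : V → V → V → V → ℝ) : Prop :=
  ∃ P : Submodule ℝ V, Module.finrank ℝ P = 2 ∧ EvenSplit P R ∧
    (∀ x ∈ P, ∀ y ∈ P, ∀ u ∈ Pᗮ, ∀ v ∈ Pᗮ, R x u x u + 2 * R x u y v + R y v y v ≤ 0) ∧
    ((∀ x ∈ P, ∀ y ∈ P, R x y x y = 0) ∨
      ((∀ x ∈ P, ∀ y ∈ P, R x y x y ≤ 0) ∧ HopfDim (m - 1) Pᗮ R)) ∧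
    HopfDim (m - 2) Pᗮ R

theorem half_turn {m : ℕ} (hm : 2 ≤ m) (e : OrthonormalBasis (Fin m × Bool) ℝ V)
    {R : V → V → V → V → ℝ} (hR : AlgCurv R) (h : HalfTurn m R) : 0 ≤ (-1) ^ m * gbc e R := by
  obtain ⟨k, rfl⟩ : ∃ k, m = k + 2 := ⟨m - 2, by omega⟩
  obtain ⟨P, hP, hE, hN, h1, h2⟩ := h
  exact even_split e hR hP hE hN h1 h2

theorem hopfDim_of_sec {R : V → V → V → V → ℝ} (hR : AlgCurv R) {W : Submodule ℝ V}
    (h : ∀ x ∈ W, ∀ y ∈ W, R x y x y ≤ 0) {k : ℕ} (hk : k ≤ 2) : HopfDim k W R := by
  intro E hE e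
  have hfin : FiniteDimensional ℝ E := Module.Finite.of_basis e.toBasis
  have hE5 : Module.finrank ℝ (⊤ : Submodule ℝ E) ≤ 5 := by
    rw [finrank_top, Module.finrank_eq_card_basis e.toBasis]
    simp only [Fintype.card_prod, Fintype.card_fin, Fintype.card_bool]
    omega
  have h2 : TwoFive 0 (fun x y z w : E => R x y z w) := by
    refine twoFive_one (restrict_curv hR E) hE5 ?_ (fun x y => h x (hE x.2) y (hE y.2))
    intro a ha y z w
    rw [Submodule.top_orthogonal_eq_bot, Submodule.mem_bot] at ha
    rw [ha]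
    exact curv_zero hR _ _ _
  exact (roundGB_nonneg le_rfl).trans (two_five e le_rfl h2)

/-- the integrated form -/
theorem field_half {m : ℕ} (hm : 2 ≤ m) {M : Type} [MeasurableSpace M]
    (μ : MeasureTheory.Measure M) (K : CurvField m M) (h : ∀ p, HalfTurn m (K.R p)) :
    0 ≤ (-1) ^ m * ∫ p, K.gb p ∂μ := by
  rw [← MeasureTheory.integral_const_mul]
  exact MeasureTheory.integral_nonneg fun p => half_turn hm (K.e p) (K.curv p) (h p)

end Pool.Agent.K1H57.PS
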