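import Pool.Agent.K1H57.PS.Alg

/-!
# Rank one tensors in some places
-/

set_option autoImplicit false

namespace Pool.Agent.K1H57.PS

open Pool.Agent.Y195.HF Pool.Agent.W666.GB Pool.Agent.W669.HD Pool.Agent.Y519.HB Finset

variable {m : ℕ}

/-- the sums with `n` factors equal to `C` are nonnegative -/
def HerN {J : Type} [Fintype J] (n : ℕ) (C : J → J → J → J → ℝ) : Prop :=
  ∀ (T : Type) [Fintype T] [DecidableEq T], Fintype.card T = n → ∀ y : T × Bool → J → ℝ,
    0 ≤ EE (fun _ : T => C) y

/-- the family with `C` in the places of `S` and rank one tensors elsewhere -/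
noncomputable def fam (S : Finset (Fin m)) (C : T4 m) (v v' : Fin m × Bool → Cv m) : Fin m → T4 m :=
  fun b => if b ∈ S then C else r1 (v (b, false)) (v (b, true)) (v' (b, false)) (v' (b, true))

theorem gm_fam (S : Finset (Fin m)) (C : T4 m) (v : Fin m × Bool → Cv m) :
    gm (fam S C v v) = gmw (wt S v) S (fun _ => C) := by
  unfold gm gmw
  refine sum_congr rfl fun σ _ => sum_congr rfl fun τ _ => ?_
  congr 1
  rw [← Finset.prod_sdiff (Finset.subset_univ S), wt, wt, ← prod_mul_distrib]
  congr 1
  · refine prod_congr rfl fun b hb => ?_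
    simp only [fam, if_neg (mem_sdiff.1 hb).2, r1]
  · refine prod_congr rfl fun b hb => ?_
    simp only [fam, if_pos hb]

theorem fam_nonneg {S : Finset (Fin m)} {C : T4 m} (h : HerN S.card C)
    (v : Fin m × Bool → Cv m) : 0 ≤ gm (fam S C v v) := by
  classical
  rw [gm_fam]
  obtain ⟨c, y, -, hgen⟩ := gen (fun _ : Fin m × Bool => ()) S v
    (fun q => ⟨(), fun _ h => absurd rfl h⟩)
  rw [hgen]
  exact mul_nonneg (sq_nonneg _) (h S (Fintype.card_coe S) y)

/-- a tensor which vanishes when an argument is the index `p` -/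
structure Off (p : Fin m × Bool) (C : T4 m) : Prop where
  s1 : ∀ j k l, C p j k l = 0
  s2 : ∀ i k l, C i p k l = 0
  s3 : ∀ i j l, C i j p l = 0
  s4 : ∀ i j k, C i j k p = 0

theorem fam_zero {S : Finset (Fin m)} {C : T4 m} {p : Fin m × Bool} (hC : Off p C)
    {v v' : Fin m × Bool → Cv m}
    (h : (∀ q, q.1 ∉ S → v q p = 0) ∨ (∀ q, q.1 ∉ S → v' q p = 0)) :
    gm (fam S C v v') = 0 := by
  unfold gm
  refine sum_eq_zero fun σ _ => sum_eq_zero fun τ _ => ?_
  have hz : ∏ b, fam S C v v' b (σ (b, false)) (σ (b, true)) (τ (b, false)) (τ (b, true)) = 0 := by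
    rcases h with h | h
    · obtain ⟨b, s, hb⟩ : ∃ b s, σ (b, s) = p := by
        obtain ⟨⟨b, s⟩, hb⟩ := σ.surjective p
        exact ⟨b, s, hb⟩
      refine prod_eq_zero (mem_univ b) ?_
      unfold fam
      split_ifs with hS
      · cases s
        · rw [hb, hC.s1]
        · rw [hb, hC.s2]
      · unfold r1
        cases s
        · rw [hb, h (b, false) hS]; ring
        · rw [hb, h (b, true) hS]; ring
    · obtain ⟨b, s, hb⟩ : ∃ b s, τ (b, s) = p := by
        obtain ⟨⟨b, s⟩, hb⟩ := τ.surjective p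
        exact ⟨b, s, hb⟩
      refine prod_eq_zero (mem_univ b) ?_
      unfold fam
      split_ifs with hS
      · cases s
        · rw [hb, hC.s3]
        · rw [hb, hC.s4]
      · unfold r1
        cases s
        · rw [hb, h (b, false) hS]; ring
        · rw [hb, h (b, true) hS]; ring
  rw [hz, mul_zero]

theorem LR_fam (S : Finset (Fin m)) (C : T4 m) (v v' : Fin m × Bool → Cv m) :
    LR m (eL (cx C) ^ S.card * ∏ b ∈ univ \ S, (bb false (v (b, false)) (v (b, true)) *
      bb true (v' (b, false)) (v' (b, true)))) = gm (fam S C v v') := by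
  rw [← LR_prod]
  congr 1
  rw [← Finset.prod_sdiff (Finset.subset_univ S) (f := fun b => eL (cx (fam S C v v' b))), mul_comm]
  congr 1
  · refine prod_congr rfl fun b hb => ?_
    simp only [fam, if_neg (mem_sdiff.1 hb).2]
    rw [eL_r1]
  · rw [← prod_const]
    refine prod_congr rfl fun b hb => ?_
    simp only [fam, if_pos hb]

section two

variable {k : ℕ}

theorem univ_zero {N : Type} [CommMonoid N] (f : Fin (k + 2) → N) :
    ∏ b ∈ univ \ (univ.erase (0 : Fin (k + 2))), f b = f 0 := by
  have h : (univ : Finset (Fin (k + 2))) \ (univ.erase 0) = {0} := by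
    ext b
    simp
  rw [h, prod_singleton]

theorem card_zero : (univ.erase (0 : Fin (k + 2))).card = k + 1 := by
  rw [card_erase_of_mem (mem_univ _), card_univ, Fintype.card_fin]
  rfl

theorem univ_one {N : Type} [CommMonoid N] (f : Fin (k + 2) → N) :
    ∏ b ∈ univ \ ((univ.erase (0 : Fin (k + 2))).erase 1), f b = f 0 * f 1 := by
  have h : (univ : Finset (Fin (k + 2))) \ ((univ.erase 0).erase 1) = {0, 1} := by
    ext b
    simp only [mem_sdiff, mem_univ, true_and, mem_erase, ne_eq, and_true, not_and, not_not,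
      mem_insert, mem_singleton]
    tauto
  rw [h, prod_pair]
  exact Fin.zero_ne_one

theorem card_one : ((univ.erase (0 : Fin (k + 2))).erase 1).card = k := by
  rw [card_erase_of_mem, card_zero]
  · rfl
  · rw [mem_erase]
    exact ⟨Ne.symm Fin.zero_ne_one, mem_univ _⟩

variable {C : T4 (k + 2)}

theorem pos_one (h : HerN (k + 1) C) (u v : Cv (k + 2)) :
    0 ≤ LR (k + 2) (eL (cx C) ^ (k + 1) * (bb false u v * bb true u v)) := by
  have h1 := LR_fam (univ.erase (0 : Fin (k + 2))) C (fun q => if q.2 = true then v else u)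
    (fun q => if q.2 = true then v else u)
  rw [univ_zero, card_zero] at h1
  simp only [Bool.false_eq_true, if_false, if_true] at h1
  rw [h1]
  exact fam_nonneg (by rw [card_zero]; exact h) _

theorem zero_one {p : Fin (k + 2) × Bool} (hC : Off p C) {u v z t : Cv (k + 2)}
    (h : (u p = 0 ∧ v p = 0) ∨ (z p = 0 ∧ t p = 0)) :
    LR (k + 2) (eL (cx C) ^ (k + 1) * (bb false u v * bb true z t)) = 0 := by
  have h1 := LR_fam (univ.erase (0 : Fin (k + 2))) C (fun q => if q.2 = true then v else u)
    (fun q => if q.2 = true then t else z)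
  rw [univ_zero, card_zero] at h1
  simp only [Bool.false_eq_true, if_false, if_true] at h1
  rw [h1]
  refine fam_zero hC ?_
  rcases h with h | h
  · left
    intro q _
    split_ifs
    · exact h.2
    · exact h.1
  · right
    intro q _
    split_ifs
    · exact h.2
    · exact h.1

theorem pos_two (h : HerN k C) (u v z t : Cv (k + 2)) :
    0 ≤ LR (k + 2) (eL (cx C) ^ k * ((bb false u v * bb true u v) *
      (bb false z t * bb true z t))) := by
  have h1 := LR_fam ((univ.erase (0 : Fin (k + 2))).erase 1) C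
    (fun q => if q.1 = 0 then (if q.2 = true then v else u) else (if q.2 = true then t else z))
    (fun q => if q.1 = 0 then (if q.2 = true then v else u) else (if q.2 = true then t else z))
  rw [univ_one, card_one] at h1
  have h10 : (1 : Fin (k + 2)) ≠ 0 := Ne.symm Fin.zero_ne_one
  simp only [Bool.false_eq_true, if_false, if_true, if_neg h10] at h1
  rw [h1]
  exact fam_nonneg (by rw [card_one]; exact h) _

theorem pos_zero {p : Fin (k + 2) × Bool} (hC : Off p C) :
    LR (k + 2) (eL (cx C) ^ (k + 2)) = 0 := by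
  rw [← gm_LR]
  have h := fam_zero (S := univ) hC (v := fun _ _ => 0) (v' := fun _ _ => 0) (Or.inl fun _ _ => rfl)
  have e : fam univ C (fun _ _ => 0) (fun _ _ => 0) = fun _ : Fin (k + 2) => C := by
    funext b
    simp [fam]
  rw [e] at h
  exact h

/-- **The algebraic theorem.** -/
theorem gm_split {κ : Type} [Fintype κ] {p : Fin (k + 2) × Bool} (hC : Off p C)
    {α β : Cv (k + 2)} {x y : κ → Cv (k + 2)}
    (h1 : HerN (k + 1) C ∨ ∃ q, Off q C ∧ α q = 0 ∧ ∀ a, x a q = 0) (h2 : HerN k C)
    (hβ : β p = 0) (hx : ∀ a, x a p = 0) (hy : ∀ a, y a p = 0) :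
    0 ≤ gm (fun _ : Fin (k + 2) => (fun i j k l => C i j k l + Bt α β x y i j k l : T4 (k + 2))) := by
  have hsum : eL (cx (fun i j k l => C i j k l + Bt α β x y i j k l : T4 (k + 2))) =
      eL (cx C) + 4 * Es α β x y := by
    rw [Es, ← eL_Bt, ← eL_add (cx C)]
    congr 1
    funext i j k l
    simp only [cx]
    push_cast
    rfl
  rw [gm_LR, hsum]
  refine LR_main _ (le_of_eq (pos_zero hC).symm) (fun a => ?_) (pos_two h2)
  have e : eL (cx C) ^ (k + 1) * ea α β (x a) (y a) =
      eL (cx C) ^ (k + 1) * (bb false α β * bb true (x a) (y a)) +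
      eL (cx C) ^ (k + 1) * (bb false (x a) (y a) * bb true α β) +
      eL (cx C) ^ (k + 1) * (bb false α (x a) * bb true α (x a)) +
      eL (cx C) ^ (k + 1) * (bb false α (x a) * bb true β (y a)) +
      eL (cx C) ^ (k + 1) * (bb false β (y a) * bb true α (x a)) +
      eL (cx C) ^ (k + 1) * (bb false β (y a) * bb true β (y a)) := by
    simp only [ea, nn]
    ring
  rw [e]
  simp only [map_add]
  rw [zero_one hC (Or.inr ⟨hx a, hy a⟩), zero_one hC (Or.inl ⟨hx a, hy a⟩),
    zero_one hC (Or.inr ⟨hβ, hy a⟩), zero_one hC (Or.inl ⟨hβ, hy a⟩),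
    zero_one hC (Or.inl ⟨hβ, hy a⟩)]
  have p1 : 0 ≤ LR (k + 2) (eL (cx C) ^ (k + 1) * (bb false α (x a) * bb true α (x a))) := by
    rcases h1 with h1 | ⟨q, hq, hα, hxq⟩
    · exact pos_one h1 α (x a)
    · rw [zero_one hq (Or.inl ⟨hα, hxq a⟩)]
  linarith

end two

end Pool.Agent.K1H57.PS
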