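import Pool.Agent.Y195.HF.Main
import Pool.Agent.Y519.HB.Top

/-!
# Products of bivectors of real covectors
-/

set_option autoImplicit false

namespace Pool.Agent.K1H57.PS

open Pool.Agent.Y195.HF Pool.Agent.W666.GB Pool.Agent.W669.HD Pool.Agent.Y519.HB Finset

variable {m : ℕ}

/-- real covectors in components -/
abbrev Cv (m : ℕ) := Fin m × Bool → ℝ

/-- the vector of a covector in one of the two copies -/
noncomputable def tv (s : Bool) (u : Cv m) : I2 m → ℂ := ∑ i, (u i : ℂ) • th m s i

/-- the bivector of two covectors in one of the two copies -/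
noncomputable def bb (s : Bool) (u v : Cv m) : Zc (I2 m → ℂ) := bv (tv s u) (tv s v)

theorem tv_add (s : Bool) (u v : Cv m) : tv s (u + v) = tv s u + tv s v := by
  simp only [tv, Pi.add_apply, Complex.ofReal_add, add_smul, Finset.sum_add_distrib]

theorem tv_smul (s : Bool) (c : ℝ) (u : Cv m) : tv s (c • u) = (c : ℂ) • tv s u := by
  simp only [tv, Pi.smul_apply, smul_eq_mul, Complex.ofReal_mul, mul_smul, Finset.smul_sum]

theorem tv_zero (s : Bool) : tv s (0 : Cv m) = 0 := by
  simp [tv]

theorem tv_sum (s : Bool) {κ : Type} (t : Finset κ) (c : κ → ℝ) (u : κ → Cv m) :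
    tv s (∑ a ∈ t, c a • u a) = ∑ a ∈ t, (c a : ℂ) • tv s (u a) := by
  classical
  induction t using Finset.induction_on with
  | empty => simp [tv_zero]
  | insert a t ha ih => rw [sum_insert ha, sum_insert ha, tv_add, tv_smul, ih]

theorem bb_sum (s : Bool) {κ : Type} [Fintype κ] (c : κ → ℝ) (u v : κ → Cv m) :
    bb s (∑ a, c a • u a) (∑ a, c a • v a) =
      ∑ a, ∑ b, ((c a * c b : ℝ) : ℂ) • bb s (u a) (v b) := by
  classical
  have h1 : ∀ (t : Finset κ) (w : κ → I2 m → ℂ) (z : I2 m → ℂ),
      bv (∑ a ∈ t, (c a : ℂ) • w a) z = ∑ a ∈ t, (c a : ℂ) • bv (w a) z := by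
    intro t w z
    induction t using Finset.induction_on with
    | empty => simp only [sum_empty]; have := bv_smul_left 0 z z; rwa [zero_smul, zero_smul] at this
    | insert a t ha ih => rw [sum_insert ha, sum_insert ha, bv_add_left, bv_smul_left, ih]
  have h2 : ∀ (t : Finset κ) (w : κ → I2 m → ℂ) (z : I2 m → ℂ),
      bv z (∑ a ∈ t, (c a : ℂ) • w a) = ∑ a ∈ t, (c a : ℂ) • bv z (w a) := by
    intro t w z
    induction t using Finset.induction_on with
    | empty => simp only [sum_empty]; have := bv_smul_right 0 z z; rwa [zero_smul, zero_smul] at this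
    | insert a t ha ih => rw [sum_insert ha, sum_insert ha, bv_add_right, bv_smul_right, ih]
  unfold bb
  rw [tv_sum, tv_sum, h1]
  refine sum_congr rfl fun a _ => ?_
  rw [h2, smul_sum]
  refine sum_congr rfl fun b _ => ?_
  rw [smul_smul, Complex.ofReal_mul]

theorem ff_dyad (s : Bool) (u v : Cv m) : ff s s (cm fun i j => u i * v j) = bb s u v := by
  classical
  have h1 : ∀ (t : Finset (Fin m × Bool)) (w : Fin m × Bool → I2 m → ℂ) (z : I2 m → ℂ),
      bv (∑ a ∈ t, (u a : ℂ) • w a) z = ∑ a ∈ t, (u a : ℂ) • bv (w a) z := by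
    intro t w z
    induction t using Finset.induction_on with
    | empty => simp only [sum_empty]; have := bv_smul_left 0 z z; rwa [zero_smul, zero_smul] at this
    | insert a t ha ih => rw [sum_insert ha, sum_insert ha, bv_add_left, bv_smul_left, ih]
  have h2 : ∀ (t : Finset (Fin m × Bool)) (w : Fin m × Bool → I2 m → ℂ) (z : I2 m → ℂ),
      bv z (∑ a ∈ t, (v a : ℂ) • w a) = ∑ a ∈ t, (v a : ℂ) • bv z (w a) := by
    intro t w z
    induction t using Finset.induction_on with
    | empty => simp only [sum_empty]; have := bv_smul_right 0 z z; rwa [zero_smul, zero_smul] at this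
    | insert a t ha ih => rw [sum_insert ha, sum_insert ha, bv_add_right, bv_smul_right, ih]
  unfold bb tv ff
  rw [h1]
  refine sum_congr rfl fun a _ => ?_
  rw [h2, smul_sum]
  refine sum_congr rfl fun b _ => ?_
  rw [smul_smul, cm, Complex.ofReal_mul]

theorem bb_swap (s : Bool) (u v : Cv m) : bb s v u = - bb s u v := bv_swap _ _

/-- the wedge product of two covectors -/
def wd (u v : Cv m) (i j : Fin m × Bool) : ℝ := u i * v j - u j * v i

theorem ff_wd (s : Bool) (u v : Cv m) : ff s s (cm (wd u v)) = 2 * bb s u v := by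
  have h : cm (wd u v) = cm (fun i j => u i * v j) + (-1 : ℂ) • cm (fun i j => v i * u j) := by
    funext i j
    simp only [cm, wd, Pi.add_apply, Pi.smul_apply, smul_eq_mul]
    push_cast
    ring
  rw [h, ff_add, ff_smul, ff_dyad, ff_dyad, bb_swap s u v, neg_smul, one_smul]
  ring

/-- rank one tensors -/
def r1 (u v z w : Cv m) : T4 m := fun i j k l => u i * v j * (z k * w l)

theorem eL_r1 (u v z w : Cv m) : eL (cx (r1 u v z w)) = bb false u v * bb true z w := by
  rw [← ff_dyad, ← ff_dyad, ← eL_mul]
  congr 1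
  funext i j k l
  simp only [cx, r1, cm]
  push_cast
  ring

/-- the algebraic relations of two bivectors with common factors -/
theorem bb_rep1 (s : Bool) (u v w : Cv m) : bb s u v * bb s u w = 0 := by
  unfold bb
  exact bv_mul_zero (by simp)

theorem bb_rep2 (s : Bool) (u v w : Cv m) : bb s u v * bb s v w = 0 := by
  unfold bb
  exact bv_mul_zero (by simp)

theorem bb_exch (s : Bool) (u v w z : Cv m) :
    bb s u v * bb s w z = - (bb s u w * bb s v z) := bv_exch _ _ _ _

theorem LR_prod (F : Fin m → T4 m) : LR m (∏ b, eL (cx (F b))) = gm F := by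
  have h := LF_el (fun b : Fin m => cx (F b))
  rw [gmC_cx] at h
  rw [LR_apply]
  unfold eL
  rw [h, Complex.ofReal_re]

end Pool.Agent.K1H57.PS
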